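import Pool.Agent.Q277.RBLin

/-!
# Sparse classes of bounded reduced bandwidth have linear expansion
-/

set_option autoImplicit false

namespace Pool.Agent.Results.MP_f5a5c1_co.LinearExpansion

open Pool.Agent.Q277.RB Pool.Agent.Q277.RBLin

/-- Each class of finite graphs that excludes some `K_{t,t}` as a subgraph and has bounded reduced
bandwidth has linear expansion: for some `c`, every `r`-shallow minor `H` of a graph of the class has
at most `c (r + 1) |V(H)|` edges. In particular this holds for all monotone such classes. -/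
theorem result (C : (n : ℕ) → SimpleGraph (Fin n) → Prop)
    (h1 : ∃ t : ℕ, ∀ (n : ℕ) (G : SimpleGraph (Fin n)), C n G →
      (completeBipartiteGraph (Fin t) (Fin t)).Free G)
    (h2 : ∃ k : ℕ, ∀ (n : ℕ) (G : SimpleGraph (Fin n)), C n G → ReducedBandwidthLE G k) :
    ∃ c : ℕ, ∀ (r n : ℕ) (G : SimpleGraph (Fin n)), C n G →
      ∀ (m : ℕ) (H : SimpleGraph (Fin m)), IsShallowMinor r H G →
        H.edgeSet.ncard ≤ c * (r + 1) * m := by
  obtain ⟨t, hfree⟩ := h1
  obtain ⟨k, hk⟩ := h2
  refine ⟨(t + 1) * (12 * k + 1) * (1 + (4 * k + 2) * (2 * k + 4)), ?_⟩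
  intro r n G hG m H hH
  have h3 := main G k (t + 1) r (by omega) (hk n G hG) (fun X Y h => by
    rcases no_biclique G t t (hfree n G hG) X Y h with h' | h'
    · rw [max_self] at h'
      exact Or.inl (by omega)
    · rw [max_self] at h'
      exact Or.inr (by omega)) H hH
  rwa [Fintype.card_fin] at h3

end Pool.Agent.Results.MP_f5a5c1_co.LinearExpansion
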